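import Mathlib

/-!
Cauchy–Schwarz (Jensen) counting in bipartite measurable graphs: cherries, three common
neighbours, `K_{2,2}`, with an exceptional set.
-/

namespace PoolH38PT

open MeasureTheory Set

section
variable {X Y : Type*} [MeasurableSpace X] [MeasurableSpace Y]

/-- Jensen for natural powers. -/
theorem lintegral_pow_le (ν : Measure Y) (k : ℕ) (g : Y → ENNReal) (hg : AEMeasurable g ν) :
    (∫⁻ y, g y ∂ν) ^ (k+1) ≤ ν univ ^ k * ∫⁻ y, g y ^ (k+1) ∂ν := by
  rcases Nat.eq_zero_or_pos k with hk | hk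
  · subst hk; simp
  have hk' : (0:ℝ) < k := by exact_mod_cast hk
  have hpq : Real.HolderConjugate ((k:ℝ)+1) (((k:ℝ)+1)/k) := by
    rw [Real.holderConjugate_iff]
    refine ⟨by linarith, ?_⟩
    field_simp
    ring
  have h := ENNReal.lintegral_mul_le_Lp_mul_Lq ν hpq hg (g := fun _ => 1) aemeasurable_const
  simp only [Pi.mul_apply, mul_one, ENNReal.one_rpow, lintegral_const, one_mul] at h
  have h2 := ENNReal.rpow_le_rpow h (z := (k:ℝ)+1) (by positivity)
  rw [ENNReal.mul_rpow_of_nonneg _ _ (by positivity), ← ENNReal.rpow_mul, ← ENNReal.rpow_mul]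
    at h2
  rw [show 1 / ((k:ℝ)+1) * (k+1) = 1 by field_simp, ENNReal.rpow_one] at h2
  rw [show 1 / (((k:ℝ)+1)/k) * ((k:ℝ)+1) = k by field_simp, ENNReal.rpow_natCast] at h2
  rw [show ((k:ℝ)+1) = ((k+1 : ℕ) : ℝ) by push_cast; ring, ENNReal.rpow_natCast] at h2
  simp only [ENNReal.rpow_natCast] at h2
  rw [mul_comm]
  exact h2

/-- The measure of the set of cherries. -/
theorem cherries (μ : Measure X) (ν : Measure Y) [SFinite μ] [SFinite ν]
    (E : Set (X × Y)) (hE : MeasurableSet E) :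
    (μ.prod ν E) ^ 2 ≤ ν univ * ∫⁻ p : X × X,
      ν {y | (p.1, y) ∈ E ∧ (p.2, y) ∈ E} ∂(μ.prod μ) := by
  have h1 : μ.prod ν E = ∫⁻ y, μ ((fun x => (x, y)) ⁻¹' E) ∂ν :=
    Measure.prod_apply_symm hE
  have hm : Measurable fun y => μ ((fun x => (x, y)) ⁻¹' E) :=
    measurable_measure_prodMk_right hE
  have h2 := lintegral_pow_le ν 1 _ hm.aemeasurable
  rw [← h1, pow_one] at h2
  refine h2.trans (le_of_eq ?_)
  congr 1
  -- both sides are the measure of a set in `(X × X) × Y`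
  set C : Set ((X × X) × Y) := {q | (q.1.1, q.2) ∈ E ∧ (q.1.2, q.2) ∈ E} with hC
  have hCm : MeasurableSet C := by
    apply MeasurableSet.inter
    · exact (measurable_fst.fst.prodMk measurable_snd) hE
    · exact (measurable_fst.snd.prodMk measurable_snd) hE
  have h3 : (μ.prod μ).prod ν C = ∫⁻ p : X × X,
      ν {y | (p.1, y) ∈ E ∧ (p.2, y) ∈ E} ∂(μ.prod μ) := Measure.prod_apply hCm
  have h4 : (μ.prod μ).prod ν C = ∫⁻ y, (μ.prod μ) ((fun p => (p, y)) ⁻¹' C) ∂ν :=
    Measure.prod_apply_symm hCm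
  rw [← h3, h4]
  refine lintegral_congr fun y => ?_
  have h5 : (fun p : X × X => (p, y)) ⁻¹' C
      = ((fun x => (x, y)) ⁻¹' E) ×ˢ ((fun x => (x, y)) ⁻¹' E) := by
    ext p; simp [hC]
  rw [h5, Measure.prod_prod, sq]

/-- The measure of the set of triples with common neighbours. -/
theorem cherries3 (μ : Measure X) (ν : Measure Y) [SFinite μ] [SFinite ν]
    (E : Set (X × Y)) (hE : MeasurableSet E) :
    (μ.prod ν E) ^ 3 ≤ ν univ ^ 2 * ∫⁻ p : X × X × X,
      ν {y | (p.1, y) ∈ E ∧ (p.2.1, y) ∈ E ∧ (p.2.2, y) ∈ E} ∂(μ.prod (μ.prod μ)) := by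
  have h1 : μ.prod ν E = ∫⁻ y, μ ((fun x => (x, y)) ⁻¹' E) ∂ν :=
    Measure.prod_apply_symm hE
  have hm : Measurable fun y => μ ((fun x => (x, y)) ⁻¹' E) :=
    measurable_measure_prodMk_right hE
  have h2 := lintegral_pow_le ν 2 _ hm.aemeasurable
  rw [← h1] at h2
  refine h2.trans (le_of_eq ?_)
  congr 1
  set C : Set ((X × X × X) × Y) :=
    {q | (q.1.1, q.2) ∈ E ∧ (q.1.2.1, q.2) ∈ E ∧ (q.1.2.2, q.2) ∈ E} with hC
  have hCm : MeasurableSet C := by
    apply MeasurableSet.inter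
    · exact (measurable_fst.fst.prodMk measurable_snd) hE
    apply MeasurableSet.inter
    · exact (measurable_fst.snd.fst.prodMk measurable_snd) hE
    · exact (measurable_fst.snd.snd.prodMk measurable_snd) hE
  have h3 : (μ.prod (μ.prod μ)).prod ν C = ∫⁻ p : X × X × X,
      ν {y | (p.1, y) ∈ E ∧ (p.2.1, y) ∈ E ∧ (p.2.2, y) ∈ E} ∂(μ.prod (μ.prod μ)) :=
    Measure.prod_apply hCm
  have h4 : (μ.prod (μ.prod μ)).prod ν C
      = ∫⁻ y, (μ.prod (μ.prod μ)) ((fun p => (p, y)) ⁻¹' C) ∂ν :=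
    Measure.prod_apply_symm hCm
  rw [← h3, h4]
  refine lintegral_congr fun y => ?_
  have h5 : (fun p : X × X × X => (p, y)) ⁻¹' C
      = ((fun x => (x, y)) ⁻¹' E) ×ˢ (((fun x => (x, y)) ⁻¹' E) ×ˢ ((fun x => (x, y)) ⁻¹' E)) := by
    ext p; simp [hC]
  rw [h5, Measure.prod_prod, Measure.prod_prod]
  ring

/-- A general averaging principle with an exceptional set: if `f ≤ M`, `∫ f ≥ A + M·b` with the
exceptional set of measure at most `b`, then there is a good point with `f ≥ A / μ(univ)`. -/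
theorem exists_good (μ : Measure X) (f : X → ENNReal)
    (B : Set X) (M A a b : ENNReal) (hM : ∀ x, f x ≤ M) (hB : μ B ≤ b)
    (hA : A + M * b < ∫⁻ x, f x ∂μ) (ha : a * μ univ ≤ A) :
    ∃ x, x ∉ B ∧ a < f x := by
  by_contra hcon
  push Not at hcon
  have h1 : ∫⁻ x, f x ∂μ ≤ M * b + a * μ univ := by
    set B' := toMeasurable μ B with hB'
    have hBm : MeasurableSet B' := measurableSet_toMeasurable μ B
    have hmu : μ B' = μ B := measure_toMeasurable B
    rw [← lintegral_add_compl f hBm]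
    gcongr
    · calc ∫⁻ x in B', f x ∂μ ≤ ∫⁻ x in B', M ∂μ :=
            setLIntegral_mono' hBm (fun x _ => hM x)
        _ = M * μ B' := by rw [setLIntegral_const]
        _ ≤ M * b := by rw [hmu]; gcongr
    · calc ∫⁻ x in B'ᶜ, f x ∂μ ≤ ∫⁻ x in B'ᶜ, a ∂μ :=
            setLIntegral_mono' hBm.compl
              (fun x hx => hcon x (fun h => hx (subset_toMeasurable μ B h)))
        _ = a * μ B'ᶜ := by rw [setLIntegral_const]
        _ ≤ a * μ univ := by gcongr; exact subset_univ _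
  have h2 : A + M * b < M * b + A := lt_of_lt_of_le hA (h1.trans (by gcongr))
  rw [add_comm] at h2
  exact lt_irrefl _ h2

/-- Three points in general position (outside `B`) with a large common neighbourhood.
`X`, `Y` carry probability measures; `E` has density at least `δ`; `B ⊆ X³` has measure less
than `δ³/2`. -/
theorem exists_three (μ : Measure X) (ν : Measure Y) [IsProbabilityMeasure μ]
    [IsProbabilityMeasure ν] (E : Set (X × Y)) (hE : MeasurableSet E) (δ : ℝ) (hδ : 0 < δ)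
    (hδE : ENNReal.ofReal δ ≤ μ.prod ν E) (B : Set (X × X × X))
    (hB : (μ.prod (μ.prod μ)) B < ENNReal.ofReal (δ ^ 3 / 2)) :
    ∃ x : X × X × X, x ∉ B ∧
      ENNReal.ofReal (δ ^ 3 / 2) ≤ ν {y | (x.1, y) ∈ E ∧ (x.2.1, y) ∈ E ∧ (x.2.2, y) ∈ E} := by
  by_contra hcon
  push Not at hcon
  have h1 := cherries3 μ ν E hE
  set P := μ.prod (μ.prod μ) with hP
  set f : X × X × X → ENNReal := fun p =>
    ν {y | (p.1, y) ∈ E ∧ (p.2.1, y) ∈ E ∧ (p.2.2, y) ∈ E} with hf
  rw [measure_univ, one_pow, one_mul] at h1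
  have h2 : ENNReal.ofReal (δ^3) ≤ ∫⁻ p, f p ∂P := by
    refine le_trans ?_ h1
    rw [ENNReal.ofReal_pow hδ.le]
    gcongr
  set B' := toMeasurable P B with hB'
  have hBm : MeasurableSet B' := measurableSet_toMeasurable P B
  have hmu : P B' = P B := measure_toMeasurable B
  have h3 : ∫⁻ p, f p ∂P ≤ P B + ENNReal.ofReal (δ^3/2) := by
    rw [← lintegral_add_compl f hBm]
    gcongr
    · calc ∫⁻ x in B', f x ∂P ≤ ∫⁻ x in B', 1 ∂P :=
            setLIntegral_mono' hBm (fun x _ => prob_le_one)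
        _ = P B' := by rw [setLIntegral_const, one_mul]
        _ ≤ P B := hmu.le
    · calc ∫⁻ x in B'ᶜ, f x ∂P ≤ ∫⁻ x in B'ᶜ, ENNReal.ofReal (δ^3/2) ∂P :=
            setLIntegral_mono' hBm.compl
              (fun x hx => (hcon x (fun h => hx (subset_toMeasurable P B h))).le)
        _ = ENNReal.ofReal (δ^3/2) * P B'ᶜ := by rw [setLIntegral_const]
        _ ≤ ENNReal.ofReal (δ^3/2) * 1 := by gcongr; exact prob_le_one
        _ = _ := mul_one _
  have h4 : P B + ENNReal.ofReal (δ^3/2) < ENNReal.ofReal (δ^3/2) + ENNReal.ofReal (δ^3/2) := by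
    exact (ENNReal.add_lt_add_iff_right ENNReal.ofReal_ne_top).2 hB
  rw [← ENNReal.ofReal_add (by positivity) (by positivity), add_halves] at h4
  exact absurd (h2.trans h3) (not_le.2 h4)

/-- Two points outside `B` with a large common neighbourhood. -/
theorem exists_two (μ : Measure X) (ν : Measure Y) [IsProbabilityMeasure μ]
    [IsProbabilityMeasure ν] (E : Set (X × Y)) (hE : MeasurableSet E) (δ : ℝ) (hδ : 0 < δ)
    (hδE : ENNReal.ofReal δ ≤ μ.prod ν E) (B : Set (X × X))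
    (hB : (μ.prod μ) B < ENNReal.ofReal (δ ^ 2 / 2)) :
    ∃ x : X × X, x ∉ B ∧
      ENNReal.ofReal (δ ^ 2 / 2) ≤ ν {y | (x.1, y) ∈ E ∧ (x.2, y) ∈ E} := by
  by_contra hcon
  push Not at hcon
  have h1 := cherries μ ν E hE
  set P := μ.prod μ with hP
  set f : X × X → ENNReal := fun p => ν {y | (p.1, y) ∈ E ∧ (p.2, y) ∈ E} with hf
  rw [measure_univ, one_mul] at h1
  have h2 : ENNReal.ofReal (δ^2) ≤ ∫⁻ p, f p ∂P := by
    refine le_trans ?_ h1
    rw [ENNReal.ofReal_pow hδ.le]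
    gcongr
  set B' := toMeasurable P B with hB'
  have hBm : MeasurableSet B' := measurableSet_toMeasurable P B
  have hmu : P B' = P B := measure_toMeasurable B
  have h3 : ∫⁻ p, f p ∂P ≤ P B + ENNReal.ofReal (δ^2/2) := by
    rw [← lintegral_add_compl f hBm]
    gcongr
    · calc ∫⁻ x in B', f x ∂P ≤ ∫⁻ x in B', 1 ∂P :=
            setLIntegral_mono' hBm (fun x _ => prob_le_one)
        _ = P B' := by rw [setLIntegral_const, one_mul]
        _ ≤ P B := hmu.le
    · calc ∫⁻ x in B'ᶜ, f x ∂P ≤ ∫⁻ x in B'ᶜ, ENNReal.ofReal (δ^2/2) ∂P :=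
            setLIntegral_mono' hBm.compl
              (fun x hx => (hcon x (fun h => hx (subset_toMeasurable P B h))).le)
        _ = ENNReal.ofReal (δ^2/2) * P B'ᶜ := by rw [setLIntegral_const]
        _ ≤ ENNReal.ofReal (δ^2/2) * 1 := by gcongr; exact prob_le_one
        _ = _ := mul_one _
  have h4 : P B + ENNReal.ofReal (δ^2/2) < ENNReal.ofReal (δ^2/2) + ENNReal.ofReal (δ^2/2) := by
    exact (ENNReal.add_lt_add_iff_right ENNReal.ofReal_ne_top).2 hB
  rw [← ENNReal.ofReal_add (by positivity) (by positivity), add_halves] at h4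
  exact absurd (h2.trans h3) (not_le.2 h4)

end

end PoolH38PT
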