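import Mathlib

/-!
Generic tools for the planar simplex problem: Remez type inequalities with polynomial
losses, on measurable sets of measure at least `δ`.
-/

namespace PoolH38PT

open MeasureTheory Polynomial Set

/-! ### discrete Remez -/

/-- Coefficient bounds for a polynomial of degree at most `d`, small at `d+1` separated points. -/
theorem coeff_le_of_separated {K : Type*} [NormedField K] (d : ℕ) :
    ∀ (p : K[X]), p.natDegree ≤ d → ∀ (x : ℕ → K) (s ε : ℝ), 0 < s → s ≤ 2 → 0 ≤ ε →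
      (∀ i ≤ d, ‖x i‖ ≤ 1) → (∀ i ≤ d, ∀ j ≤ d, i ≠ j → s ≤ ‖x i - x j‖) →
      (∀ i ≤ d, ‖p.eval (x i)‖ ≤ ε) → ∀ k, ‖p.coeff k‖ ≤ 4 ^ d * ε / s ^ d := by
  induction d with
  | zero =>
    intro p hp x s ε hs hs2 hε hx hsep hpx k
    have hp0 : p = C (p.coeff 0) := Polynomial.eq_C_of_natDegree_le_zero hp
    rcases Nat.eq_zero_or_pos k with hk | hk
    · subst hk
      have := hpx 0 le_rfl
      rw [hp0] at this
      simpa using this
    · rw [hp0, Polynomial.coeff_C, if_neg hk.ne']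
      simpa using hε
  | succ d ih =>
    intro p hp x s ε hs hs2 hε hx hsep hpx k
    set a := x (d+1) with ha
    set q := p /ₘ (X - C a) with hq
    have hpq : p = (X - C a) * q + C (p.eval a) := by
      have h1 := Polynomial.modByMonic_add_div p (X - C a)
      rw [Polynomial.modByMonic_X_sub_C_eq_C_eval] at h1
      rw [hq]
      linear_combination -h1
    have hdeg : q.natDegree ≤ d := by
      rw [hq, Polynomial.natDegree_divByMonic _ (monic_X_sub_C a), natDegree_X_sub_C]
      omega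
    have hqx : ∀ i ≤ d, ‖q.eval (x i)‖ ≤ 2 * ε / s := by
      intro i hi
      have h1 : p.eval (x i) = (x i - a) * q.eval (x i) + p.eval a := by
        conv_lhs => rw [hpq]
        simp
      have h2 : s ≤ ‖x i - a‖ := hsep i (by omega) (d+1) le_rfl (by omega)
      have h3 : ‖(x i - a) * q.eval (x i)‖ ≤ 2 * ε := by
        have : (x i - a) * q.eval (x i) = p.eval (x i) - p.eval a := by rw [h1]; ring
        rw [this]
        calc _ ≤ ‖p.eval (x i)‖ + ‖p.eval a‖ := norm_sub_le _ _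
          _ ≤ ε + ε := add_le_add (hpx i (by omega)) (hpx (d+1) le_rfl)
          _ = 2 * ε := by ring
      rw [norm_mul] at h3
      rw [le_div_iff₀ hs]
      calc ‖q.eval (x i)‖ * s ≤ ‖q.eval (x i)‖ * ‖x i - a‖ :=
            mul_le_mul_of_nonneg_left h2 (norm_nonneg _)
        _ = ‖x i - a‖ * ‖q.eval (x i)‖ := mul_comm _ _
        _ ≤ 2 * ε := h3
    have hq' := ih q hdeg x s (2 * ε / s) hs hs2 (by positivity)
      (fun i hi => hx i (by omega)) (fun i hi j hj => hsep i (by omega) j (by omega)) hqx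
    have ha1 : ‖a‖ ≤ 1 := hx (d+1) le_rfl
    have hB : 4 ^ d * (2 * ε / s) / s ^ d = 2 * 4 ^ d * ε / s ^ (d+1) := by
      field_simp
      ring
    have hq2 : ∀ k, ‖q.coeff k‖ ≤ 2 * 4 ^ d * ε / s ^ (d+1) := fun k => hB ▸ hq' k
    have hs3 : s ^ (d+1) ≤ 2 * 4 ^ d := by
      calc s ^ (d+1) ≤ 2 ^ (d+1) := pow_le_pow_left₀ hs.le hs2 _
        _ = 2 * 2 ^ d := by ring
        _ ≤ 2 * 4 ^ d := by
          apply mul_le_mul_of_nonneg_left _ (by norm_num)
          exact pow_le_pow_left₀ (by norm_num) (by norm_num) _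
    have hε2 : ε ≤ 2 * 4 ^ d * ε / s ^ (d+1) := by
      rw [le_div_iff₀ (by positivity)]
      calc ε * s ^ (d+1) ≤ ε * (2 * 4 ^ d) := mul_le_mul_of_nonneg_left hs3 hε
        _ = 2 * 4 ^ d * ε := by ring
    have hfin : 2 * 4 ^ d * ε / s ^ (d+1) + 2 * 4 ^ d * ε / s ^ (d+1)
        = 4 ^ (d+1) * ε / s ^ (d+1) := by
      field_simp
      ring
    rw [← hfin]
    have hcoef : ∀ k, ‖a * q.coeff k‖ ≤ 2 * 4 ^ d * ε / s ^ (d+1) := by
      intro k
      rw [norm_mul]
      calc ‖a‖ * ‖q.coeff k‖ ≤ 1 * ‖q.coeff k‖ :=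
            mul_le_mul_of_nonneg_right ha1 (norm_nonneg _)
        _ = ‖q.coeff k‖ := one_mul _
        _ ≤ _ := hq2 k
    rcases k with _ | k
    · have : p.coeff 0 = -(a * q.coeff 0) + p.eval a := by
        conv_lhs => rw [hpq]
        simp [sub_mul]
      rw [this]
      calc _ ≤ ‖-(a * q.coeff 0)‖ + ‖p.eval a‖ := norm_add_le _ _
        _ ≤ _ := by
          rw [norm_neg]
          exact add_le_add (hcoef 0) ((hpx (d+1) le_rfl).trans hε2)
    · have : p.coeff (k+1) = q.coeff k - a * q.coeff (k+1) := by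
        conv_lhs => rw [hpq]
        simp [sub_mul, coeff_X_mul]
      rw [this]
      calc _ ≤ ‖q.coeff k‖ + ‖a * q.coeff (k+1)‖ := norm_sub_le _ _
        _ ≤ _ := add_le_add (hq2 k) (hcoef (k+1))

/-! ### choosing separated points -/

/-- In a set of measure larger than `n * m` one finds `n+1` points such that none lies in
the exceptional set `B (x i)` (of measure at most `m`) of an earlier one. -/
theorem exists_points {α : Type*} [MeasurableSpace α] (μ : Measure α) (E : Set α)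
    (B : α → Set α) (m : ENNReal) (hB : ∀ x ∈ E, μ (B x ∩ E) ≤ m) (n : ℕ)
    (hE : n * m < μ E) :
    ∃ x : ℕ → α, (∀ i ≤ n, x i ∈ E) ∧ ∀ i ≤ n, ∀ j < i, x i ∉ B (x j) := by
  induction n with
  | zero =>
    have : (E).Nonempty := by
      by_contra h
      rw [Set.not_nonempty_iff_eq_empty] at h
      rw [h] at hE
      simp at hE
    obtain ⟨x, hx⟩ := this
    exact ⟨fun _ => x, fun i _ => hx, fun i hi j hj => by omega⟩
  | succ n ih =>
    have hE' : n * m < μ E := by
      refine lt_of_le_of_lt ?_ hE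
      push_cast
      gcongr
      exact le_self_add
    obtain ⟨x, hx, hxB⟩ := ih hE'
    have hU : μ (⋃ i ∈ Finset.range (n+1), (B (x i) ∩ E)) ≤ (n+1 : ℕ) * m := by
      calc _ ≤ ∑ i ∈ Finset.range (n+1), μ (B (x i) ∩ E) := measure_biUnion_finset_le _ _
        _ ≤ ∑ i ∈ Finset.range (n+1), m :=
          Finset.sum_le_sum (fun i hi => hB _ (hx i (by simpa [Nat.lt_succ_iff] using hi)))
        _ = (n+1 : ℕ) * m := by simp
    have hne : (E \ ⋃ i ∈ Finset.range (n+1), (B (x i) ∩ E)).Nonempty := by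
      by_contra h
      rw [Set.not_nonempty_iff_eq_empty, Set.sdiff_eq_empty] at h
      exact absurd (measure_mono h) (not_le.mpr (lt_of_le_of_lt hU hE))
    obtain ⟨y, hyE, hy⟩ := hne
    refine ⟨fun i => if i ≤ n then x i else y, ?_, ?_⟩
    · intro i _
      by_cases h : i ≤ n
      · simpa [h] using hx i h
      · simpa [h] using hyE
    · intro i hi j hj
      by_cases h : i ≤ n
      · have hj' : j ≤ n := by omega
        simpa [h, hj'] using hxB i h j hj
      · have hj' : j ≤ n := by omega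
        simp only [h, hj', if_true, if_false]
        intro hyB
        apply hy
        simp only [Set.mem_iUnion]
        exact ⟨j, by simpa [Nat.lt_succ_iff] using hj', hyB, hyE⟩

/-- Separated points in a set of reals of measure at least `δ`. -/
theorem exists_separated_real (E : Set ℝ) (d : ℕ) (δ : ℝ) (hδ : 0 < δ)
    (hE : ENNReal.ofReal δ ≤ volume E) :
    ∃ x : ℕ → ℝ, (∀ i ≤ d, x i ∈ E) ∧
      ∀ i ≤ d, ∀ j ≤ d, i ≠ j → δ / (2 * (d + 1)) ≤ |x i - x j| := by
  set s := δ / (2 * (d + 1)) with hs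
  have hs0 : 0 < s := by positivity
  obtain ⟨x, hx, hxB⟩ := exists_points volume E (fun x => Metric.ball x s)
    (ENNReal.ofReal (2 * s)) (fun x _ => by
      calc _ ≤ volume (Metric.ball x s) := measure_mono inter_subset_left
        _ = _ := Real.volume_ball x s) d (by
      refine lt_of_lt_of_le ?_ hE
      rw [← ENNReal.ofReal_natCast, ← ENNReal.ofReal_mul (by positivity)]
      rw [ENNReal.ofReal_lt_ofReal_iff hδ, hs]
      rw [show (d : ℝ) * (2 * (δ / (2 * (d + 1)))) = δ * (d / (d+1)) by field_simp]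
      have : (d : ℝ) / (d + 1) < 1 := by
        rw [div_lt_one (by positivity)]
        linarith
      nlinarith)
  refine ⟨x, hx, ?_⟩
  have key : ∀ i ≤ d, ∀ j < i, s ≤ |x i - x j| := by
    intro i hi j hj
    have := hxB i hi j hj
    rw [Metric.mem_ball, not_lt, Real.dist_eq] at this
    exact this
  intro i hi j hj hij
  rcases lt_or_gt_of_ne hij with h | h
  · rw [abs_sub_comm]
    exact key j hj i h
  · exact key i hi j h

/-! ### Remez in one real variable -/

/-- Remez: a real polynomial with coefficients `c 0, …, c d` that is at most `ε` on a subset of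
`[-1,1]` of measure at least `δ` has all coefficients at most `(8(d+1))^d ε / δ^d`. -/
theorem remez1 (d : ℕ) (c : ℕ → ℝ) (E : Set ℝ) (δ ε : ℝ) (hδ : 0 < δ) (hε : 0 ≤ ε)
    (hEs : E ⊆ Icc (-1) 1) (hE : ENNReal.ofReal δ ≤ volume E)
    (hp : ∀ x ∈ E, |∑ k ∈ Finset.range (d+1), c k * x ^ k| ≤ ε) :
    ∀ k ≤ d, |c k| ≤ (8 * (d + 1)) ^ d * ε / δ ^ d := by
  intro k hk
  obtain ⟨x, hx, hsep⟩ := exists_separated_real E d δ hδ hE
  have hδ2 : δ ≤ 2 := by
    have h1 : ENNReal.ofReal δ ≤ ENNReal.ofReal 2 := by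
      calc _ ≤ volume E := hE
        _ ≤ volume (Icc (-1 : ℝ) 1) := measure_mono hEs
        _ = ENNReal.ofReal 2 := by rw [Real.volume_Icc]; norm_num
    exact (ENNReal.ofReal_le_ofReal_iff (by norm_num)).1 h1
  set p : ℝ[X] := ∑ k ∈ Finset.range (d+1), C (c k) * X ^ k with hpdef
  have hcoef : ∀ k ≤ d, p.coeff k = c k := by
    intro k hk
    rw [hpdef, Polynomial.finsetSum_coeff]
    simp only [coeff_C_mul, coeff_X_pow]
    rw [Finset.sum_eq_single k]
    · simp
    · intro b _ hb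
      simp [Ne.symm hb]
    · intro h
      exact absurd (Finset.mem_range.2 (by omega)) h
  have hdeg : p.natDegree ≤ d := by
    rw [hpdef]
    apply Polynomial.natDegree_sum_le_of_forall_le
    intro i hi
    refine (natDegree_C_mul_X_pow_le _ _).trans ?_
    simpa [Nat.lt_succ_iff] using hi
  have hev : ∀ y, p.eval y = ∑ k ∈ Finset.range (d+1), c k * y ^ k := by
    intro y
    rw [hpdef, Polynomial.eval_finsetSum]
    simp
  have := coeff_le_of_separated d p hdeg x (δ / (2 * (d+1))) ε (by positivity)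
    (by
      rw [div_le_iff₀ (by positivity)]
      have : (0:ℝ) ≤ d := by positivity
      nlinarith) hε
    (fun i hi => by
      have := hEs (hx i hi)
      rw [Real.norm_eq_abs, abs_le]
      exact this)
    (fun i hi j hj hij => by
      rw [Real.norm_eq_abs]
      exact hsep i hi j hj hij)
    (fun i hi => by
      rw [Real.norm_eq_abs, hev]
      exact hp _ (hx i hi)) k
  rw [hcoef k hk, Real.norm_eq_abs] at this
  refine this.trans (le_of_eq ?_)
  rw [div_pow, div_div_eq_mul_div, mul_pow 2, mul_pow 8]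
  rw [show (8:ℝ) ^ d = 4 ^ d * 2 ^ d by rw [← mul_pow]; norm_num]
  ring

/-! ### popularity -/

/-- Popularity: a function with values in `[0,1]` and integral at least `δ` is at least `δ/2 / μ`
on a set of measure at least `δ/2`; here with a total mass `μ(X) ≤ M`. -/
theorem popular {α : Type*} [MeasurableSpace α] (μ : Measure α) (S : Set α)
    (hS : MeasurableSet S) (f : α → ENNReal) (hf : Measurable f) (M δ m : ENNReal)
    (hM : ∀ x ∈ S, f x ≤ M) (hμ : μ S ≤ m) (hδ : 2 * δ * m ≤ ∫⁻ x in S, f x ∂μ)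
    (hfin : δ * m ≠ ⊤) :
    δ * m ≤ M * μ {x ∈ S | δ ≤ f x} := by
  set F := {x ∈ S | δ ≤ f x} with hF
  have hFm : MeasurableSet F := hS.inter (measurableSet_le measurable_const hf)
  have h1 : ∫⁻ x in S, f x ∂μ = ∫⁻ x in F, f x ∂μ + ∫⁻ x in S \ F, f x ∂μ := by
    rw [← lintegral_inter_add_sdiff f S hFm]
    congr 2
    rw [Set.inter_eq_right.2 (fun x hx => hx.1)]
  have h2 : ∫⁻ x in F, f x ∂μ ≤ M * μ F := by
    calc _ ≤ ∫⁻ x in F, M ∂μ := setLIntegral_mono' hFm (fun x hx => hM x hx.1)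
      _ = M * μ F := by rw [setLIntegral_const]
  have h3 : ∫⁻ x in S \ F, f x ∂μ ≤ δ * m := by
    calc _ ≤ ∫⁻ x in S \ F, δ ∂μ := setLIntegral_mono' (hS.diff hFm) (fun x hx => by
            by_contra h
            exact hx.2 ⟨hx.1, (not_le.1 h).le⟩)
      _ = δ * μ (S \ F) := by rw [setLIntegral_const]
      _ ≤ δ * m := by
        gcongr
        exact (measure_mono sdiff_subset).trans hμ
  have h4 : δ * m + δ * m ≤ M * μ F + δ * m := by
    calc δ * m + δ * m = 2 * δ * m := by ring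
      _ ≤ ∫⁻ x in S, f x ∂μ := hδ
      _ = _ := h1
      _ ≤ _ := add_le_add h2 h3
  exact (ENNReal.add_le_add_iff_right hfin).1 h4

/-! ### Remez in two real variables -/

/-- Fubini selection: a measurable subset `E` of `[-1,1]²` of measure at least `δ` has, for a set
of `x ∈ [-1,1]` of measure at least `δ/4`, sections of measure at least `δ/4`. -/
theorem exists_heavy_sections (E : Set (ℝ × ℝ)) (hEm : MeasurableSet E) (δ : ℝ) (hδ : 0 < δ)
    (hEs : E ⊆ Icc (-1) 1 ×ˢ Icc (-1) 1) (hE : ENNReal.ofReal δ ≤ volume E) :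
    ∃ F : Set ℝ, MeasurableSet F ∧ F ⊆ Icc (-1) 1 ∧ ENNReal.ofReal (δ/4) ≤ volume F ∧
      ∀ x ∈ F, ENNReal.ofReal (δ/4) ≤ volume (Prod.mk x ⁻¹' E) := by
  have hm : Measurable fun x : ℝ => volume (Prod.mk x ⁻¹' E) :=
    measurable_measure_prodMk_left hEm
  have hv : volume E = ∫⁻ x, volume (Prod.mk x ⁻¹' E) := by
    rw [Measure.volume_eq_prod, Measure.prod_apply hEm]
  have hv2 : ∫⁻ x, volume (Prod.mk x ⁻¹' E)
      = ∫⁻ x in Icc (-1:ℝ) 1, volume (Prod.mk x ⁻¹' E) := by
    rw [← lintegral_indicator measurableSet_Icc]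
    congr 1
    funext x
    by_cases hx : x ∈ Icc (-1:ℝ) 1
    · rw [Set.indicator_of_mem hx]
    · rw [Set.indicator_of_notMem hx]
      have : Prod.mk x ⁻¹' E = ∅ := by
        apply Set.eq_empty_of_forall_notMem
        intro y hy
        exact hx (hEs hy).1
      rw [this, measure_empty]
  have hI : volume (Icc (-1:ℝ) 1) = 2 := by
    rw [Real.volume_Icc]; norm_num
  have := popular volume (Icc (-1:ℝ) 1) measurableSet_Icc _ hm 2 (ENNReal.ofReal (δ/4)) 2
    (fun x hx => by
      calc volume (Prod.mk x ⁻¹' E) ≤ volume (Icc (-1:ℝ) 1) :=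
            measure_mono (fun y hy => (hEs hy).2)
        _ = 2 := hI)
    hI.le
    (by
      rw [← hv2, ← hv]
      refine le_trans (le_of_eq ?_) hE
      rw [show (2:ENNReal) = ENNReal.ofReal 2 by norm_num, ← ENNReal.ofReal_mul (by norm_num),
        ← ENNReal.ofReal_mul (by positivity)]
      congr 1
      ring)
    (ENNReal.mul_ne_top ENNReal.ofReal_ne_top (by norm_num))
  refine ⟨{x ∈ Icc (-1:ℝ) 1 | ENNReal.ofReal (δ/4) ≤ volume (Prod.mk x ⁻¹' E)},
    measurableSet_Icc.inter (measurableSet_le measurable_const hm), fun x hx => hx.1, ?_,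
    fun x hx => hx.2⟩
  rw [mul_comm] at this
  exact (ENNReal.mul_le_mul_iff_right (by norm_num) (by norm_num)).1 this

/-- Remez in two variables: coefficients `c i j`, `i, j ≤ d`. -/
theorem remez2 (d : ℕ) (c : ℕ → ℕ → ℝ) (E : Set (ℝ × ℝ)) (hEm : MeasurableSet E) (δ ε : ℝ)
    (hδ : 0 < δ) (hε : 0 ≤ ε)
    (hEs : E ⊆ Icc (-1) 1 ×ˢ Icc (-1) 1) (hE : ENNReal.ofReal δ ≤ volume E)
    (hp : ∀ x ∈ E, |∑ i ∈ Finset.range (d+1), ∑ j ∈ Finset.range (d+1),
      c i j * x.1 ^ i * x.2 ^ j| ≤ ε) :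
    ∀ i ≤ d, ∀ j ≤ d, |c i j| ≤ (32 * (d + 1)) ^ (2 * d) * ε / δ ^ (2 * d) := by
  obtain ⟨F, hFm, hFs, hF, hsec⟩ := exists_heavy_sections E hEm δ hδ hEs hE
  intro i hi j hj
  have h1 : ∀ x ∈ F, |∑ i ∈ Finset.range (d+1), c i j * x ^ i|
      ≤ (8 * (d + 1)) ^ d * ε / (δ/4) ^ d := by
    intro x hx
    refine remez1 d (fun j => ∑ i ∈ Finset.range (d+1), c i j * x ^ i) (Prod.mk x ⁻¹' E)
      (δ/4) ε (by positivity) hε (fun y hy => (hEs hy).2) (hsec x hx) ?_ j hj
    intro y hy
    have := hp (x, y) hy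
    rw [Finset.sum_comm] at this
    simp only [Finset.sum_mul]
    exact this
  have h2 := remez1 d (fun i => c i j) F (δ/4) ((8 * (d + 1)) ^ d * ε / (δ/4) ^ d)
    (by positivity) (by positivity) hFs hF h1 i hi
  refine h2.trans (le_of_eq ?_)
  rw [div_pow]
  have h8 : (8 * ((d:ℝ) + 1)) ^ d * (8 * ((d:ℝ) + 1)) ^ d * 4 ^ d * 4 ^ d
      = (32 * (d + 1)) ^ (2 * d) := by
    rw [two_mul, pow_add]
    rw [show (32 * ((d:ℝ) + 1)) = (8 * (d+1)) * 4 by ring, mul_pow (8 * ((d:ℝ)+1)) 4]
    ring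
  rw [← h8, two_mul d, pow_add δ]
  field_simp

end PoolH38PT
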