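import Mathlib
import Pool.Agent.H38.PT.Remez

/-!
Remez type inequality for trigonometric polynomials, and for polynomials in `re z, im z`.
-/

namespace PoolH38PT

open MeasureTheory Polynomial Set

/-- Chord against arc on a half circle. -/
theorem chord_ge (a b : ℝ) (h : |a - b| ≤ Real.pi) :
    2 / Real.pi * |a - b| ≤ ‖Complex.exp (a * Complex.I) - Complex.exp (b * Complex.I)‖ := by
  have h1 : ‖Complex.exp (a * Complex.I) - Complex.exp (b * Complex.I)‖
      = 2 * |Real.sin ((a - b) / 2)| := by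
    have e : Complex.exp (a * Complex.I) - Complex.exp (b * Complex.I)
        = Complex.exp (((a + b) / 2 : ℝ) * Complex.I)
          * (2 * (Real.sin ((a - b) / 2) : ℂ) * Complex.I) := by
      have e1 : Complex.exp (a * Complex.I)
          = Complex.exp (((a + b) / 2 : ℝ) * Complex.I)
            * Complex.exp (((a - b) / 2 : ℝ) * Complex.I) := by
        rw [← Complex.exp_add]; congr 1; push_cast; ring
      have e2 : Complex.exp (b * Complex.I)
          = Complex.exp (((a + b) / 2 : ℝ) * Complex.I)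
            * Complex.exp (-(((a - b) / 2 : ℝ) * Complex.I)) := by
        rw [← Complex.exp_add]; congr 1; push_cast; ring
      rw [e1, e2, ← mul_sub]
      congr 1
      rw [Complex.ofReal_sin, Complex.sin]
      rw [neg_mul]
      linear_combination (Complex.exp (((a - b) / 2 : ℝ) * Complex.I)
        - Complex.exp (-(((a - b) / 2 : ℝ) * Complex.I))) * Complex.I_sq
    rw [e, norm_mul, Complex.norm_exp_ofReal_mul_I, one_mul, norm_mul, norm_mul,
      Complex.norm_I, mul_one, Complex.norm_real, Real.norm_eq_abs]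
    simp
  rw [h1]
  have h2 : |Real.sin ((a - b) / 2)| = Real.sin (|a - b| / 2) := by
    have hpi := Real.pi_pos
    rcases le_total 0 (a - b) with h0 | h0
    · rw [abs_of_nonneg h0] at h ⊢
      rw [abs_of_nonneg (Real.sin_nonneg_of_nonneg_of_le_pi (by linarith) (by linarith))]
    · rw [abs_of_nonpos h0] at h ⊢
      rw [neg_div, Real.sin_neg]
      rw [abs_of_nonpos (Real.sin_nonpos_of_nonpos_of_neg_pi_le (by linarith) (by linarith))]
  rw [h2]
  have := Real.mul_le_sin (x := |a - b| / 2) (by positivity) (by linarith)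
  calc 2 / Real.pi * |a - b| = 2 * (2 / Real.pi * (|a - b| / 2)) := by ring
    _ ≤ _ := by linarith

/-- Remez for trigonometric polynomials, one sided form: `∑_{k<n+1} c k e(kθ)`. -/
theorem remezTrig' (n : ℕ) (c : ℕ → ℂ) (E : Set ℝ) (δ ε : ℝ) (hδ : 0 < δ) (hε : 0 ≤ ε)
    (hEs : E ⊆ Icc 0 (2 * Real.pi)) (hE : ENNReal.ofReal δ ≤ volume E)
    (hp : ∀ θ ∈ E, ‖∑ k ∈ Finset.range (n+1), c k * Complex.exp (k * (θ * Complex.I))‖ ≤ ε) :
    ∀ k ≤ n, ‖c k‖ ≤ (32 * (n + 1)) ^ n * ε / δ ^ n := by
  intro k hk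
  -- one of the two halves
  obtain ⟨E', hE's, hlen, hE'v⟩ : ∃ E' ⊆ E, (∀ a ∈ E', ∀ b ∈ E', |a - b| ≤ Real.pi) ∧
      ENNReal.ofReal (δ / 2) ≤ volume E' := by
    by_cases h1 : ENNReal.ofReal (δ / 2) ≤ volume (E ∩ Icc 0 Real.pi)
    · refine ⟨_, inter_subset_left, ?_, h1⟩
      rintro a ⟨_, ha⟩ b ⟨_, hb⟩
      rw [abs_le]
      constructor <;> linarith [ha.1, ha.2, hb.1, hb.2]
    · refine ⟨E ∩ Icc Real.pi (2 * Real.pi), inter_subset_left, ?_, ?_⟩
      · rintro a ⟨_, ha⟩ b ⟨_, hb⟩
        rw [abs_le]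
        constructor <;> linarith [ha.1, ha.2, hb.1, hb.2]
      · by_contra h2
        rw [not_le] at h1 h2
        have h3 : volume E ≤ volume (E ∩ Icc 0 Real.pi)
            + volume (E ∩ Icc Real.pi (2 * Real.pi)) := by
          refine (measure_mono ?_).trans (measure_union_le _ _)
          intro x hx
          rcases le_total x Real.pi with h | h
          · exact Or.inl ⟨hx, (hEs hx).1, h⟩
          · exact Or.inr ⟨hx, h, (hEs hx).2⟩
        have h4 : ENNReal.ofReal δ = ENNReal.ofReal (δ/2) + ENNReal.ofReal (δ/2) := by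
          rw [← ENNReal.ofReal_add (by positivity) (by positivity)]
          congr 1; ring
        have h5 := ENNReal.add_lt_add h1 h2
        rw [← h4] at h5
        exact absurd (hE.trans h3) (not_le.2 h5)
  obtain ⟨x, hx, hsep⟩ := exists_separated_real E' n (δ/2) (by positivity) hE'v
  have hδ2 : δ / 2 ≤ 2 * Real.pi := by
    have h1 : ENNReal.ofReal (δ/2) ≤ ENNReal.ofReal (2 * Real.pi) := by
      calc _ ≤ volume E' := hE'v
        _ ≤ volume (Icc (0 : ℝ) (2 * Real.pi)) := measure_mono (hE's.trans hEs)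
        _ = ENNReal.ofReal (2 * Real.pi) := by rw [Real.volume_Icc]; norm_num
    exact (ENNReal.ofReal_le_ofReal_iff (by positivity)).1 h1
  set p : ℂ[X] := ∑ k ∈ Finset.range (n+1), C (c k) * X ^ k with hpdef
  have hcoef : ∀ k ≤ n, p.coeff k = c k := by
    intro k hk
    rw [hpdef, Polynomial.finsetSum_coeff]
    simp only [coeff_C_mul, coeff_X_pow]
    rw [Finset.sum_eq_single k]
    · simp
    · intro b _ hb
      simp [Ne.symm hb]
    · intro h
      exact absurd (Finset.mem_range.2 (by omega)) h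
  have hdeg : p.natDegree ≤ n := by
    rw [hpdef]
    apply Polynomial.natDegree_sum_le_of_forall_le
    intro i hi
    refine (natDegree_C_mul_X_pow_le _ _).trans ?_
    simpa [Nat.lt_succ_iff] using hi
  have hev : ∀ θ : ℝ, p.eval (Complex.exp (θ * Complex.I))
      = ∑ k ∈ Finset.range (n+1), c k * Complex.exp (k * (θ * Complex.I)) := by
    intro θ
    rw [hpdef, Polynomial.eval_finsetSum]
    refine Finset.sum_congr rfl fun i _ => ?_
    rw [eval_mul, eval_C, eval_pow, eval_X, ← Complex.exp_nat_mul]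
  have hpi := Real.pi_pos
  have hpi4 := Real.pi_le_four
  -- separation `δ / (8 (n+1))`
  have := coeff_le_of_separated n p hdeg (fun i => Complex.exp (x i * Complex.I))
    (δ / (8 * (n+1))) ε (by positivity)
    (by
      rw [div_le_iff₀ (by positivity)]
      have : (0:ℝ) ≤ n := by positivity
      nlinarith) hε
    (fun i hi => by
      rw [Complex.norm_exp_ofReal_mul_I])
    (fun i hi j hj hij => by
      refine le_trans ?_ (chord_ge _ _ (hlen _ (hx i hi) _ (hx j hj)))
      have h1 := hsep i hi j hj hij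
      calc δ / (8 * (n+1)) = 2 / 4 * (δ / 2 / (2 * (n+1))) := by
            field_simp
            norm_num
        _ ≤ 2 / Real.pi * |x i - x j| := by
            apply mul_le_mul _ h1 (by positivity) (by positivity)
            exact div_le_div_of_nonneg_left (by norm_num) hpi hpi4)
    (fun i hi => by
      rw [hev]
      exact hp _ (hE's (hx i hi))) k
  rw [hcoef k hk] at this
  refine this.trans (le_of_eq ?_)
  rw [div_pow, div_div_eq_mul_div, mul_pow 8, mul_pow 32]
  rw [show (32:ℝ) ^ n = 4 ^ n * 8 ^ n by rw [← mul_pow]; norm_num]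
  ring

/-- Remez for trigonometric polynomials `∑_{|k| ≤ d} c k e(kθ)`. -/
theorem remezTrig (d : ℕ) (c : ℤ → ℂ) (E : Set ℝ) (δ ε : ℝ) (hδ : 0 < δ) (hε : 0 ≤ ε)
    (hEs : E ⊆ Icc 0 (2 * Real.pi)) (hE : ENNReal.ofReal δ ≤ volume E)
    (hp : ∀ θ ∈ E, ‖∑ k ∈ Finset.Icc (-(d:ℤ)) d,
      c k * Complex.exp (k * (θ * Complex.I))‖ ≤ ε) :
    ∀ k ∈ Finset.Icc (-(d:ℤ)) d,
      ‖c k‖ ≤ (64 * (d + 1)) ^ (2 * d) * ε / δ ^ (2 * d) := by
  intro k hk
  rw [Finset.mem_Icc] at hk
  have h := remezTrig' (2 * d) (fun j => c ((j:ℤ) - d)) E δ ε hδ hε hEs hE (fun θ hθ => by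
    have h1 := hp θ hθ
    have h2 : ∑ k ∈ Finset.range (2*d+1), c ((k:ℤ) - d) * Complex.exp (k * (θ * Complex.I))
        = Complex.exp (d * (θ * Complex.I)) * ∑ k ∈ Finset.Icc (-(d:ℤ)) d,
          c k * Complex.exp (k * (θ * Complex.I)) := by
      rw [Finset.mul_sum]
      refine Finset.sum_bij (fun j _ => (j:ℤ) - d) ?_ ?_ ?_ ?_
      · intro j hj
        rw [Finset.mem_range] at hj
        rw [Finset.mem_Icc]
        constructor <;> omega
      · intro a _ b _ hab
        simpa using hab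
      · intro b hb
        rw [Finset.mem_Icc] at hb
        refine ⟨(b + d).toNat, ?_, ?_⟩
        · rw [Finset.mem_range]; omega
        · omega
      · intro j hj
        rw [mul_left_comm (Complex.exp _), ← Complex.exp_add]
        congr 2
        push_cast
        ring
    rw [h2, norm_mul, show ((d:ℂ) * (θ * Complex.I)) = ((d * θ : ℝ) : ℂ) * Complex.I by
      push_cast; ring, Complex.norm_exp_ofReal_mul_I, one_mul]
    exact h1) (k + d).toNat (by omega)
  have hk2 : (((k + d).toNat : ℤ) : ℤ) - d = k := by omega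
  rw [hk2] at h
  refine h.trans ?_
  have h3 : 32 * (((2 * d : ℕ) : ℝ) + 1) ≤ 64 * (d + 1) := by
    push_cast
    linarith
  have h4 : (32 * (((2 * d : ℕ) : ℝ) + 1)) ^ (2 * d) ≤ (64 * (d + 1)) ^ (2 * d) :=
    pow_le_pow_left₀ (by positivity) h3 _
  exact div_le_div_of_nonneg_right (mul_le_mul_of_nonneg_right h4 hε) (by positivity)

end PoolH38PT
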