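import Mathlib

/-!
Plancherel for functions in `L¹ ∩ L²` and the inverse theorem for the `U²` norm of the plane
(any finite-dimensional inner product space).
-/

namespace PoolH38PT

open MeasureTheory FourierTransform SchwartzMap
open scoped ComplexConjugate ContDiff

variable {V : Type*} [NormedAddCommGroup V] [InnerProductSpace ℝ V] [FiniteDimensional ℝ V]
  [MeasurableSpace V] [BorelSpace V]

theorem continuous_fourier (F : V → ℂ) (hF : Integrable F) : Continuous (𝓕 F) :=
  VectorFourier.fourierIntegral_continuous Real.continuous_fourierChar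
      (by exact continuous_inner) hF

/-- Self-adjointness of the Fourier transform. -/
theorem integral_fourier_mul_flip (f g : V → ℂ) (hf : Integrable f) (hg : Integrable g) :
    ∫ ξ, 𝓕 f ξ * g ξ = ∫ x, f x * 𝓕 g x := by
  have := VectorFourier.integral_bilin_fourierIntegral_eq_flip (ContinuousLinearMap.mul ℂ ℂ)
    (L := innerₗ V) (μ := volume) (ν := volume)
    Real.continuous_fourierChar (by exact continuous_inner) hf hg
  rw [flip_innerₗ] at this
  exact this

theorem fourier_toLp_ae (F : V → ℂ) (hF : Integrable F) (hF2 : MemLp F 2) :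
    ((𝓕 (hF2.toLp F) : Lp ℂ 2 (volume : Measure V)) : V → ℂ) =ᵐ[volume] 𝓕 F := by
  have hcont : Continuous (𝓕 F) := continuous_fourier F hF
  apply ae_eq_of_integral_contDiff_smul_eq
  · exact (Lp.memLp _).locallyIntegrable (by norm_num)
  · exact hcont.locallyIntegrable
  intro g hg hgc
  have hg₁ : HasCompactSupport (Complex.ofRealCLM ∘ g) := hgc.comp_left rfl
  have hg₂ : ContDiff ℝ ∞ (Complex.ofRealCLM ∘ g) := by fun_prop
  set φ : 𝓢(V, ℂ) := hg₁.toSchwartzMap hg₂ with hφ
  have h1 := congrArg (fun T => T φ) (Lp.fourier_toTemperedDistribution_eq (hF2.toLp F))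
  simp only [TemperedDistribution.fourier_apply, Lp.toTemperedDistribution_apply] at h1
  have h2 : ∫ x, (𝓕 φ) x • (hF2.toLp F : V → ℂ) x = ∫ x, (𝓕 φ) x • F x := by
    apply integral_congr_ae
    filter_upwards [hF2.coeFn_toLp] with x hx
    rw [hx]
  have h3 : ∫ x, (𝓕 φ) x • F x = ∫ x, φ x • (𝓕 F) x := by
    simp only [smul_eq_mul]
    exact integral_fourier_mul_flip φ F φ.integrable hF
  have h4 : ∀ (H : V → ℂ), ∫ x, g x • H x = ∫ x, φ x • H x := by
    intro H
    refine integral_congr_ae (Filter.Eventually.of_forall fun x => ?_)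
    simp [hφ]
  rw [h4, h4, ← h3, ← h2, h1]

/-- Plancherel for functions in `L¹ ∩ L²`. -/
theorem memLp_fourier (F : V → ℂ) (hF : Integrable F) (hF2 : MemLp F 2) :
    MemLp (𝓕 F) 2 := by
  have := Lp.memLp (𝓕 (hF2.toLp F) : Lp ℂ 2 (volume : Measure V))
  exact (memLp_congr_ae (fourier_toLp_ae F hF hF2)).1 this

theorem plancherel (F : V → ℂ) (hF : Integrable F) (hF2 : MemLp F 2) :
    ∫ ξ, ‖𝓕 F ξ‖ ^ 2 = ∫ x, ‖F x‖ ^ 2 := by
  have h1 := Lp.norm_fourier_eq (hF2.toLp F)
  have h2 : ∀ (G : Lp ℂ 2 (volume : Measure V)), ‖G‖ ^ 2 = ∫ x, ‖G x‖ ^ 2 := by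
    intro G
    have h := L2.inner_def (𝕜 := ℂ) G G
    have h3 : ∫ a, (inner ℂ (G a) (G a) : ℂ) = ((∫ x, ‖G x‖ ^ 2 : ℝ) : ℂ) := by
      rw [← integral_complex_ofReal]
      refine integral_congr_ae (Filter.Eventually.of_forall fun x => ?_)
      simp [inner_self_eq_norm_sq_to_K]
    rw [h3] at h
    have h4 := congrArg Complex.re h
    rw [Complex.ofReal_re] at h4
    rw [← h4]
    exact (inner_self_eq_norm_sq (𝕜 := ℂ) G).symm
  have h3 := congrArg (fun t => t ^ 2) h1
  simp only [h2] at h3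
  have h4 : ∫ x, ‖(𝓕 (hF2.toLp F) : Lp ℂ 2 (volume : Measure V)) x‖ ^ 2 = ∫ ξ, ‖𝓕 F ξ‖ ^ 2 := by
    apply integral_congr_ae
    filter_upwards [fourier_toLp_ae F hF hF2] with x hx
    rw [hx]
  have h5 : ∫ x, ‖(hF2.toLp F : V → ℂ) x‖ ^ 2 = ∫ x, ‖F x‖ ^ 2 := by
    apply integral_congr_ae
    filter_upwards [hF2.coeFn_toLp] with x hx
    rw [hx]
  rw [← h4, ← h5]
  exact h3

end PoolH38PT
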